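import Pool.Agent.Lib.MP_904cf4_co.Exact

set_option autoImplicit false

namespace Pool.Agent.Results.MP_904cf4_co.ExactValue

open Pool.Agent.Lib.MP_904cf4_co

/-- `f(k, k - s) = ⌊(R(k, s + 1) - 1) / (k - s)⌋` for `s ≥ 2` and `(⌊log₂ k⌋ + 2) ^ (70 s) ≤ k`. -/
theorem result (k s : ℕ) (hs : 2 ≤ s) (h : (Nat.log 2 k + 2) ^ (70 * s) ≤ k) :
    fkt k (k - s) = (ramsey k (s + 1) - 1) / (k - s) := by
  have h1 : s ≤ k := by
    have h2 : 70 * s < 2 ^ (70 * s) := Nat.lt_two_pow_self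
    have h3 : 2 ^ (70 * s) ≤ (Nat.log 2 k + 2) ^ (70 * s) := Nat.pow_le_pow_left (by omega) _
    omega
  obtain ⟨t, rfl⟩ := Nat.exists_eq_add_of_le h1
  rw [Nat.add_sub_cancel_left]
  exact EXA.fkt_exact s t hs h

end Pool.Agent.Results.MP_904cf4_co.ExactValue
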