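import Pool.Agent.Lib.MP_904cf4_co.Final

set_option autoImplicit false

namespace Pool.Agent.Results.MP_904cf4_co.LowerBound

open Pool.Agent.Lib.MP_904cf4_co

/-- `f(k,t) ≥ ⌊(R(k, k-t+1) + R(t, k-t+1) - 2 - 2(k-t)) / (2t)⌋` for `2 < t < k - 1`. -/
theorem result (k t : ℕ) (ht : 2 < t) (hk : t + 1 < k) :
    (ramsey k (k - t + 1) + ramsey t (k - t + 1) - 2 - 2 * (k - t)) / (2 * t) ≤ fkt k t := by
  obtain ⟨s, rfl⟩ : ∃ s, k = s + t := ⟨k - t, by omega⟩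
  rw [Nat.add_sub_cancel]
  exact fkt_lower s t ht (by omega)

end Pool.Agent.Results.MP_904cf4_co.LowerBound
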