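import Pool.Agent.Lib.MP_904cf4_co.SmallT

set_option autoImplicit false

namespace Pool.Agent.Results.MP_904cf4_co.SmallT

open Pool.Agent.Lib.MP_904cf4_co

/-- For `2 < t < k - 1` and `R(t, 2t) ≤ k`, `f(k,t)` is at least the minimum of
`⌊(R(k, k-t+1) - 1 - (k-t)) / t⌋` and `⌊(R(k, k-1) - 3k) / (2t - 1)⌋`. -/
theorem result (k t : ℕ) (ht : 2 < t) (hk : t + 1 < k) (h : ramsey t (2 * t) ≤ k) :
    min ((ramsey k (k - t + 1) - 1 - (k - t)) / t) ((ramsey k (k - 1) - 3 * k) / (2 * t - 1)) ≤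
      fkt k t := by
  obtain ⟨s, rfl⟩ : ∃ s, k = s + t := ⟨k - t, by omega⟩
  rw [Nat.add_sub_cancel]
  exact fkt_small s t ht (by omega) h

end Pool.Agent.Results.MP_904cf4_co.SmallT
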