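import Pool.Agent.Lib.MP_904cf4_co.Uniform

set_option autoImplicit false

namespace Pool.Agent.Results.MP_904cf4_co.UniformGap

open Pool.Agent.Lib.MP_904cf4_co

/-- `f(k, k - s) = (1 + o(1)) R(k, s + 1) / (k - s)` uniformly for `2 ≤ s ≤ k ^ (1/2 - δ)`. -/
theorem result (δ : ℝ) (hδ : 0 < δ) (ε : ℝ) (hε : 0 < ε) :
    ∃ K : ℕ, ∀ k s : ℕ, K ≤ k → 2 ≤ s → (s : ℝ) ≤ (k : ℝ) ^ (1 / 2 - δ) →
      |(fkt k (k - s) : ℝ) / ((ramsey k (s + 1) : ℝ) / ((k : ℝ) - s)) - 1| ≤ ε := by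
  obtain ⟨m, hm⟩ := exists_nat_ge (2 / δ)
  obtain ⟨T, hT⟩ := Unif.unif m ε hε
  refine ⟨2 * T + 1, fun k s hk hs h => ?_⟩
  have hk1 : (1 : ℝ) ≤ k := by exact_mod_cast (by omega : 1 ≤ k)
  have h1 : s ≤ k := by
    have := h.trans (Real.rpow_le_rpow_of_exponent_le hk1 (by linarith : 1 / 2 - δ ≤ 1))
    rw [Real.rpow_one] at this
    exact_mod_cast this
  have h2 : (s : ℝ) ^ (2 * (m + 4)) ≤ (k : ℝ) ^ m := by
    refine (pow_le_pow_left₀ (Nat.cast_nonneg s) h _).trans ?_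
    rw [← Real.rpow_mul_natCast (by linarith), ← Real.rpow_natCast]
    refine Real.rpow_le_rpow_of_exponent_le hk1 ?_
    rw [div_le_iff₀ hδ] at hm
    push_cast
    nlinarith
  obtain ⟨t, rfl⟩ := Nat.exists_eq_add_of_le h1
  have h3 := hT s t (by omega) hs (by exact_mod_cast h2)
  rw [Nat.add_sub_cancel_left, div_div_eq_mul_div, Nat.cast_add, add_sub_cancel_left]
  exact h3

end Pool.Agent.Results.MP_904cf4_co.UniformGap
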